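import Pool.Agent.H987.Z.StD

/-! Comparison with the free operator (statement `S_close`). -/

set_option autoImplicit false

open scoped BigOperators InnerProductSpace Topology
open Filter MeasureTheory

namespace Pool.Agent.H284.Z987

open Pool.Agent.H987.Z
open Pool.Agent.Y662.TR (LL Cf Mw dv hu ll_ext Mw_apply Mw_norm clp clp_eq sub_coord smul_coord
  add_coord)
open Pool.Agent.TH369.AN (Rz rz_uniq)

theorem mw_small {ι : Type} (V : ι → ℝ) {δ : ℝ} (h0 : 0 ≤ δ) (h1 : δ ≤ 1) (h : ∀ x, |V x| ≤ δ) :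
    ‖Mw (ι := ι) 1 V‖ ≤ δ := by
  have e : Mw (ι := ι) 1 V = Mw δ V := by
    ext u x
    rw [Mw_apply, Mw_apply, clp_eq (by rw [abs_one]; exact (h x).trans h1),
      clp_eq (by rw [abs_of_nonneg h0]; exact h x)]
  rw [e]
  exact (Mw_norm δ V).trans (abs_of_nonneg h0).le

theorem mw_zero {ι : Type} : Mw (ι := ι) 1 (fun _ => 0) = 0 := by
  have h : ‖Mw (ι := ι) 1 (fun _ => 0)‖ ≤ 0 := mw_small _ le_rfl zero_le_one (by simp)
  exact norm_le_zero_iff.1 h

theorem ra_right {G : Type} [Group G] : RA (fun s : G => Equiv.mulRight s) :=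
  ⟨fun x => by simp, fun s t x => by simp [mul_assoc]⟩

theorem ra_shp {G : Type} [Group G] {n : ℕ} : RA (fun s : G => shp (n := n) s) :=
  ⟨fun x => by simp [shp], fun s t x => by
    obtain ⟨l, y⟩ := x
    simp [shp, mul_assoc]⟩

theorem sy_zero {G : Type} [Group G] : Sy (fun _ : G => (0 : ℝ)) :=
  ⟨by simp, fun _ => rfl⟩

theorem ka_zero {G ι : Type} [Group G] (ρ : G → Equiv.Perm ι) : KA ρ (fun _ => (0 : ℝ)) = 0 := by
  unfold KA
  simp

theorem hv_zero {ι : Type} (T : LL ι →L[ℂ] LL ι) : HV T (fun _ => 0) = T := by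
  unfold HV
  rw [mw_zero, add_zero]

theorem tb_zero {G : Type} [Group G] {n : ℕ} (b : G → ℝ) (τ : Vt G n → Fin (n + 1) → ℝ) :
    TB b 0 τ = KA shp b := by
  unfold TB
  simp

/-- the free Green function on the tree -/
theorem free_tree (hc : S_conv) (hr : S_root) {G : Type} [Group G] (n : ℕ) (b0 : G → ℝ)
    (hb0 : Sy b0) (z : ℂ) (hz : z.im ≠ 0) :
    Gr (KA (shp (n := n)) b0) z oo oo = Gr (KT b0) z 1 1 := by
  obtain ⟨φ, h1, h2⟩ := hr G n b0 hb0 0 (fun _ _ => 1) (fun _ _ => by simp) (fun _ => 0) z hz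
  have h3 := h1 1
  rw [tb_zero, hv_zero] at h3
  have hsa : IsSelfAdjoint (KT b0) := (hc G G _ ra_right b0 b0 hb0 hb0).2.2.1.sa
  have h4 : φ = Rz (KT b0) z (dv 1) := by
    refine rz_uniq (KT b0) hsa z hz φ (dv 1) (ll_ext fun x => ?_)
    have h5 := h2 x
    rw [hv_zero] at h5
    rw [sub_coord, smul_coord, ← h5]
    simp
  show Gr (KA (shp (n := n)) b0) z ([], 1) oo = _
  rw [← h3, h4]
  rfl

theorem int_le {Ω : Type} [MeasurableSpace Ω] (P : Measure Ω) [IsProbabilityMeasure P] (f : Ω → ℝ)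
    {η : ℝ} (h : ∀ᵐ ω ∂P, |f ω| ≤ η) : ∫ ω, f ω ∂P ≤ η := by
  have h1 := norm_integral_le_of_norm_le_const (μ := P) (f := f) (C := η) h
  rw [probReal_univ, mul_one] at h1
  exact (le_abs_self _).trans h1

theorem ae_small {ι : Type} [Countable ι] (ν : Measure ℝ) [IsProbabilityMeasure ν] {δ : ℝ}
    (h : ∀ᵐ s ∂ν, |s| ≤ δ) : ∀ᵐ V ∂(Measure.infinitePi fun _ : ι => ν), ∀ x, |V x| ≤ δ := by
  rw [ae_all_iff]
  intro x
  have h1 := measurePreserving_eval_infinitePi (fun _ : ι => ν) x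
  exact h1.quasiMeasurePreserving.ae h

theorem hu_sq_small {a g : ℂ} {c m : ℝ} (hc : 0 < c) (hm : 0 < m) (hm1 : m ≤ 1) (hg : c ≤ g.im)
    (h : ‖a - g‖ ≤ c / 2 * m) : |hu a g ^ 2| ≤ m := by
  have h1 := Complex.abs_im_le_norm (a - g)
  rw [Complex.sub_im] at h1
  have h2 := (abs_le.1 (h1.trans h)).1
  have h3 : c / 2 ≤ a.im := by nlinarith
  have h4 : c / 2 ≤ g.im := by linarith
  obtain ⟨k1, k2⟩ := hu_small (by linarith : 0 < c / 2) h3 h4 h
  have h5 : (c / 2 * m) ^ 2 / (c / 2) ^ 2 = m ^ 2 := by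
    field_simp
  rw [h5] at k2
  rw [abs_of_nonneg (sq_nonneg _)]
  have h6 : hu a g ≤ 1 := by nlinarith
  nlinarith

theorem close (hc : S_conv) (hg : S_green) (ht : S_tree) (hr : S_root) :
    Pool.Agent.H987.Z.S_close := by
  intro g α β c C hF θ η hθ hη
  have hc0 := hF.c0
  obtain ⟨m, hm⟩ : ∃ m, m = min 1 η := ⟨_, rfl⟩
  have hm0 : 0 < m := by rw [hm]; positivity
  have hm1 : m ≤ 1 := by rw [hm]; exact min_le_left _ _
  have hmη : m ≤ η := by rw [hm]; exact min_le_right _ _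
  obtain ⟨δ, hδ⟩ : ∃ δ, δ = min 1 (θ ^ 2 * (c / 2 * m) / 2) := ⟨_, rfl⟩
  have hδ0 : 0 < δ := by rw [hδ]; positivity
  have hδ1 : δ ≤ 1 := by rw [hδ]; exact min_le_left _ _
  have hδ2 : 2 * δ / θ ^ 2 ≤ c / 2 * m := by
    rw [div_le_iff₀ (by positivity)]
    have : δ ≤ θ ^ 2 * (c / 2 * m) / 2 := by rw [hδ]; exact min_le_right _ _
    linarith
  refine ⟨δ, hδ0, fun G _ _ b0 b hb0 hb hfree ν _ hν z hz1 hz2 hz3 hz4 => ?_⟩
  have hz0 : 0 < z.im := hθ.trans_le hz3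
  have hgz : c ≤ (g z).im := hF.lo z hz1 hz2 hz0 hz4
  -- a general comparison
  have main : ∀ (ι : Type) (T T' : LL ι →L[ℂ] LL ι) (x : ι), Rs T → Rs T' → ‖T - T'‖ ≤ 2 * δ →
      Gr T' z x x = g z → |hu (Gr T z x x) (g z) ^ 2| ≤ η := by
    intro ι T T' x hT hT' hd hx
    obtain ⟨-, -, -, -, -, g5, -, -⟩ := hg ι T hT
    have h1 := g5 T' z x x hT' hz0
    rw [hx] at h1
    refine le_trans (hu_sq_small hc0 hm0 hm1 hgz (h1.trans (le_trans ?_ hδ2))) hmη
    have h2 : θ ^ 2 ≤ z.im ^ 2 := pow_le_pow_left₀ hθ.le hz3 2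
    gcongr
  obtain ⟨-, -, r1, -⟩ := hc G G _ ra_right b b hb hb
  obtain ⟨-, -, r0, -⟩ := hc G G _ ra_right b0 b0 hb0 hb0
  obtain ⟨-, -, -, r2⟩ := hc G G _ ra_right b b0 hb hb0
  constructor
  · intro hN
    refine int_le _ _ ?_
    filter_upwards [ae_small (ι := G) ν hν] with V hV
    have h1 : Rs (HV (KT b) V) := ((hg G (KT b) r1).1 V).1
    refine main G (HV (KT b) V) (KT b0) 1 h1 r0 ?_ (hfree z hz0)
    have h2 : HV (KT b) V - KT b0 = (KT b - KT b0) + Mw 1 V := by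
      unfold HV
      abel
    rw [h2]
    have h3 : ‖KT b - KT b0‖ ≤ δ := r2.trans hN
    exact (norm_add_le _ _).trans (by have := mw_small V hδ0.le hδ1 hV; linarith)
  · intro n a hN τ hτ
    refine int_le _ _ ?_
    filter_upwards [ae_small (ι := Vt G n) ν hν] with V hV
    obtain ⟨t1, -⟩ := ht G n b hb a τ
    obtain ⟨-, t2⟩ := ht G n (fun _ => 0) sy_zero a τ
    have hN0 : N1 (fun _ : G => (0 : ℝ)) = 0 := by unfold N1; simp
    rw [hN0, zero_add] at t2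
    have h1 : Rs (HV (TB b a τ) V) := ((hg _ (TB b a τ) t1).1 V).1
    obtain ⟨-, -, s0, -⟩ := hc G (Vt G n) _ ra_shp b0 b0 hb0 hb0
    obtain ⟨-, -, -, s2⟩ := hc G (Vt G n) _ ra_shp b b0 hb hb0
    refine main (Vt G n) (HV (TB b a τ) V) (KA shp b0) oo h1 s0 ?_
      ((free_tree hc hr n b0 hb0 z hz0.ne').trans (hfree z hz0))
    have h2 : HV (TB b a τ) V - KA shp b0 =
        (KA shp b - KA shp b0) + TB (fun _ => 0) a τ + Mw 1 V := by
      unfold HV TB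
      rw [ka_zero]
      abel
    rw [h2]
    have h3 := norm_add_le ((KA shp b - KA shp b0) + TB (fun _ => 0) a τ) (Mw 1 V)
    have h4 := norm_add_le (KA shp b - KA shp b0) (TB (fun _ => 0) a τ)
    have h5 := mw_small V hδ0.le hδ1 hV
    linarith

end Pool.Agent.H284.Z987
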