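import Pool.Agent.H987.Z.StB
import Pool.Graph.R_pool_sql_team_seeded_1acbe0a2.Y662.TR.Hp

/-! The triangle inequality for the hyperbolic functional (statement `S_hutri`). -/

set_option autoImplicit false

namespace Pool.Agent.H284.Z987

open Pool.Agent.Y662.TR (hu cosh_hu)

theorem four_sinh_sq (a b : UpperHalfPlane) : (2 * Real.sinh (dist a b / 2)) ^ 2 = hu a b := by
  have h1 := cosh_hu a b
  have h2 : Real.cosh (dist a b) = 2 * Real.sinh (dist a b / 2) ^ 2 + 1 := by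
    have h3 := Real.cosh_two_mul (dist a b / 2)
    rw [Real.cosh_sq (dist a b / 2), mul_div_cancel₀ (dist a b) two_ne_zero] at h3
    rw [h3]
    ring
  nlinarith

theorem cosh_half_le (q : ℝ) (hq : 0 ≤ q) : Real.cosh (q / 2) ≤ 1 + (2 * Real.sinh (q / 2)) / 2 := by
  have h0 : 0 ≤ Real.sinh (q / 2) := Real.sinh_nonneg_iff.2 (by positivity)
  have h1 := Real.cosh_sq (q / 2)
  have h2 : Real.cosh (q / 2) ^ 2 ≤ (1 + (2 * Real.sinh (q / 2)) / 2) ^ 2 := by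
    rw [h1]
    nlinarith
  exact le_of_sq_le_sq h2 (by positivity)

theorem tri_xy (a b c : UpperHalfPlane) :
    2 * Real.sinh (dist a c / 2) ≤ 2 * Real.sinh (dist a b / 2) + 2 * Real.sinh (dist b c / 2) +
      (2 * Real.sinh (dist a b / 2)) * (2 * Real.sinh (dist b c / 2)) := by
  have hp : 0 ≤ dist a b := dist_nonneg
  have hq : 0 ≤ dist b c := dist_nonneg
  have hp0 : 0 ≤ Real.sinh (dist a b / 2) := Real.sinh_nonneg_iff.2 (by positivity)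
  have hq0 : 0 ≤ Real.sinh (dist b c / 2) := Real.sinh_nonneg_iff.2 (by positivity)
  have h1 : Real.sinh (dist a c / 2) ≤ Real.sinh (dist a b / 2 + dist b c / 2) := by
    rw [Real.sinh_le_sinh]
    have := dist_triangle a b c
    linarith
  rw [Real.sinh_add] at h1
  have h2 := cosh_half_le _ hp
  have h3 := cosh_half_le _ hq
  nlinarith [mul_le_mul_of_nonneg_left h3 hp0, mul_le_mul_of_nonneg_right h2 hq0]

theorem pow_four {ε Y W : ℝ} (h0 : 0 < ε) (h1 : ε ≤ 1) :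
    (Y + W) ^ 4 ≤ (1 + ε) * Y ^ 4 + (1 + 7 / ε) ^ 3 * W ^ 4 := by
  set s : ℝ := ε / 7 with hs
  have hs0 : 0 < s := by positivity
  have hs1 : s ≤ 1 := by rw [hs]; linarith
  have e1 : 1 + 7 / ε = 1 + 1 / s := by
    rw [hs]
    field_simp
  have key : ∀ A B : ℝ, (A + B) ^ 2 ≤ (1 + s) * A ^ 2 + (1 + 1 / s) * B ^ 2 := by
    intro A B
    have : (1 + s) * A ^ 2 + (1 + 1 / s) * B ^ 2 - (A + B) ^ 2 = (s * A - B) ^ 2 / s := by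
      field_simp
      ring
    have h2 : 0 ≤ (s * A - B) ^ 2 / s := by positivity
    linarith
  have k1 := key Y W
  have k2 : ((1 + s) * Y ^ 2 + (1 + 1 / s) * W ^ 2) ^ 2 ≤
      (1 + s) * ((1 + s) * Y ^ 2) ^ 2 + (1 + 1 / s) * ((1 + 1 / s) * W ^ 2) ^ 2 := key _ _
  have k3 : (Y + W) ^ 4 ≤ ((1 + s) * Y ^ 2 + (1 + 1 / s) * W ^ 2) ^ 2 := by
    calc (Y + W) ^ 4 = ((Y + W) ^ 2) ^ 2 := by ring
      _ ≤ _ := pow_le_pow_left₀ (sq_nonneg _) k1 2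
  have k4 : (1 + s) ^ 3 ≤ 1 + ε := by
    have : ε = 7 * s := by rw [hs]; ring
    rw [this]
    nlinarith [mul_nonneg hs0.le hs0.le, mul_nonneg hs0.le (sub_nonneg.2 hs1),
      mul_nonneg (mul_nonneg hs0.le hs0.le) (sub_nonneg.2 hs1)]
  rw [e1]
  calc (Y + W) ^ 4 ≤ _ := k3
    _ ≤ _ := k2
    _ = (1 + s) ^ 3 * Y ^ 4 + (1 + 1 / s) ^ 3 * W ^ 4 := by ring
    _ ≤ (1 + ε) * Y ^ 4 + (1 + 1 / s) ^ 3 * W ^ 4 := by
      have : 0 ≤ Y ^ 4 := by positivity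
      nlinarith [mul_le_mul_of_nonneg_right k4 this]

theorem hutri : Pool.Agent.H987.Z.S_hutri := by
  intro ε h0 h1
  refine ⟨8 * (1 + 7 / ε) ^ 3, by positivity, ?_⟩
  intro a b c ha hb hc
  have t := tri_xy ⟨a, ha⟩ ⟨b, hb⟩ ⟨c, hc⟩
  have e1 := four_sinh_sq ⟨a, ha⟩ ⟨b, hb⟩
  have e2 := four_sinh_sq ⟨b, hb⟩ ⟨c, hc⟩
  have e3 := four_sinh_sq ⟨a, ha⟩ ⟨c, hc⟩
  have x0 : 0 ≤ 2 * Real.sinh (dist (⟨a, ha⟩ : UpperHalfPlane) ⟨b, hb⟩ / 2) := by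
    have := Real.sinh_nonneg_iff.2 (show 0 ≤ dist (⟨a, ha⟩ : UpperHalfPlane) ⟨b, hb⟩ / 2 by positivity)
    linarith
  have y0 : 0 ≤ 2 * Real.sinh (dist (⟨b, hb⟩ : UpperHalfPlane) ⟨c, hc⟩ / 2) := by
    have := Real.sinh_nonneg_iff.2 (show 0 ≤ dist (⟨b, hb⟩ : UpperHalfPlane) ⟨c, hc⟩ / 2 by positivity)
    linarith
  have z0 : 0 ≤ 2 * Real.sinh (dist (⟨a, ha⟩ : UpperHalfPlane) ⟨c, hc⟩ / 2) := by
    have := Real.sinh_nonneg_iff.2 (show 0 ≤ dist (⟨a, ha⟩ : UpperHalfPlane) ⟨c, hc⟩ / 2 by positivity)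
    linarith
  generalize 2 * Real.sinh (dist (⟨a, ha⟩ : UpperHalfPlane) ⟨b, hb⟩ / 2) = X at *
  generalize 2 * Real.sinh (dist (⟨b, hb⟩ : UpperHalfPlane) ⟨c, hc⟩ / 2) = Y at *
  generalize 2 * Real.sinh (dist (⟨a, ha⟩ : UpperHalfPlane) ⟨c, hc⟩ / 2) = Z at *
  simp only at e1 e2 e3
  rw [← e1, ← e2, ← e3]
  have t2 : Z ≤ Y + X * (1 + Y) := by linarith
  have t3 : Z ^ 4 ≤ (Y + X * (1 + Y)) ^ 4 := pow_le_pow_left₀ z0 t2 4
  have t4 := pow_four (Y := Y) (W := X * (1 + Y)) h0 h1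
  have t5 : (1 + Y) ^ 4 ≤ 8 * (1 + Y ^ 4) := by
    nlinarith [sq_nonneg (Y - 1), sq_nonneg (Y ^ 2 - 1), sq_nonneg (Y ^ 2 - Y), mul_nonneg y0 y0]
  have t6 : (X * (1 + Y)) ^ 4 ≤ X ^ 4 * (8 * (1 + Y ^ 4)) := by
    rw [mul_pow]
    exact mul_le_mul_of_nonneg_left t5 (by positivity)
  have t7 : (1 + 7 / ε) ^ 3 * (X * (1 + Y)) ^ 4 ≤ (1 + 7 / ε) ^ 3 * (X ^ 4 * (8 * (1 + Y ^ 4))) :=
    mul_le_mul_of_nonneg_left t6 (by positivity)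
  calc (Z ^ 2) ^ 2 = Z ^ 4 := by ring
    _ ≤ _ := t3
    _ ≤ _ := t4
    _ ≤ (1 + ε) * Y ^ 4 + (1 + 7 / ε) ^ 3 * (X ^ 4 * (8 * (1 + Y ^ 4))) := by linarith
    _ = _ := by ring

end Pool.Agent.H284.Z987
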