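import Pool.Agent.H987.Z.StE

/-! Continuity in the weights (statement `S_lim`). -/

set_option autoImplicit false

open scoped BigOperators InnerProductSpace Topology
open Filter MeasureTheory

namespace Pool.Agent.H284.Z987

open Pool.Agent.H987.Z
open Pool.Agent.Y662.TR (LL Cf Mw dv hu hu_nonneg)
open Pool.Agent.TH369.AN (Rz)

theorem ra_r {G : Type} [Group G] : RA (fun s : G => Equiv.mulRight s) :=
  ⟨fun x => by simp, fun s t x => by simp [mul_assoc]⟩

theorem lim (hc : S_conv) (hg : S_green) : Pool.Agent.H987.Z.S_lim := by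
  intro G _ _ b b' hb hb' hN ν _ z g e hz hgi he
  have hK : ∀ c : G → ℝ, Sy c → ‖KT c‖ ≤ N1 c ∧ Rs (KT c) := fun c h =>
    ⟨(hc G G _ ra_r c c h h).2.1, (hc G G _ ra_r c c h h).2.2.1⟩
  have hD : ∀ n, ‖KT b' - KT (b n)‖ ≤ N1 fun x => b' x - b n x := fun n =>
    (hc G G _ ra_r b' (b n) hb' (hb n)).2.2.2
  obtain ⟨h, hh⟩ : ∃ h, h = N1 b' + 1 := ⟨_, rfl⟩
  have hbd : ∀ᶠ n in atTop, ‖KT (b n)‖ ≤ h := by
    filter_upwards [hN.eventually_le_const (u := 1) (by norm_num)] with n hn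
    have h1 : ‖KT (b n)‖ ≤ ‖KT b'‖ + ‖KT b' - KT (b n)‖ := by
      have := norm_sub_le (KT b') (KT b' - KT (b n))
      rwa [sub_sub_cancel] at this
    have h2 := (hK b' hb').1
    have h3 := (hD n).trans hn
    linarith
  obtain ⟨K, hKd⟩ : ∃ K, K = 1 / z.im := ⟨_, rfl⟩
  obtain ⟨κ, hκd⟩ : ∃ κ, κ = z.im / (h + 1 + ‖z‖) ^ 2 := ⟨_, rfl⟩
  have hBn : ∀ᶠ n in atTop, Bd (fun V : G → ℝ => GS (b n) V z) K κ := by
    filter_upwards [hbd] with n hn
    rw [hKd, hκd]
    exact bd_gr hg (KT (b n)) (hK _ (hb n)).2 h hn z hz 1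
  have hB' : Bd (fun V : G → ℝ => GS b' V z) K κ := by
    rw [hKd, hκd]
    exact bd_gr hg (KT b') (hK _ hb').2 h ((hK _ hb').1.trans (by rw [hh]; linarith)) z hz 1
  -- pointwise convergence
  have hpt : ∀ V : G → ℝ, Tendsto (fun n => GS (b n) V z) atTop (𝓝 (GS b' V z)) := by
    intro V
    rw [tendsto_iff_norm_sub_tendsto_zero]
    refine squeeze_zero (fun _ => norm_nonneg _) (g := fun n => (N1 fun x => b' x - b n x) / z.im ^ 2)
      (fun n => ?_) ?_
    · have k1 : Rs (HV (KT b') V) := ((hg G _ (hK _ hb').2).1 V).1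
      have k2 : Rs (HV (KT (b n)) V) := ((hg G _ (hK _ (hb n)).2).1 V).1
      obtain ⟨-, -, -, -, -, g5, -, -⟩ := hg G _ k1
      have h1 := g5 (HV (KT (b n)) V) z 1 1 k2 hz
      have h2 : HV (KT b') V - HV (KT (b n)) V = KT b' - KT (b n) := by
        unfold HV
        abel
      rw [h2] at h1
      rw [norm_sub_rev]
      refine h1.trans ?_
      have h3 := hD n
      gcongr
    · have := hN.div_const (z.im ^ 2)
      rwa [zero_div] at this
  have hhu : ∀ V : G → ℝ, Tendsto (fun n => hu (GS (b n) V z) g ^ 2) atTop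
      (𝓝 (hu (GS b' V z) g ^ 2)) := by
    intro V
    refine Tendsto.pow ?_ 2
    unfold hu
    refine Tendsto.div (((hpt V).sub_const g).norm.pow 2)
      (((Complex.continuous_im.tendsto _).comp (hpt V)).mul_const g.im) ?_
    exact (mul_pos (hB'.pos V) hgi).ne'
  have hlim : Tendsto (fun n => ∫ V, hu (GS (b n) V z) g ^ 2 ∂(Measure.infinitePi fun _ : G => ν))
      atTop (𝓝 (∫ V, hu (GS b' V z) g ^ 2 ∂(Measure.infinitePi fun _ : G => ν))) := by
    refine tendsto_integral_filter_of_dominated_convergence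
      (fun _ => ((K + ‖g‖) ^ 2 / (κ * g.im)) ^ 2) ?_ ?_ (integrable_const _)
      (Eventually.of_forall hhu)
    · filter_upwards [hBn] with n hn
      exact ((hu_meas hn.me g).pow_const 2).aestronglyMeasurable
    · filter_upwards [hBn] with n hn
      refine Eventually.of_forall fun V => ?_
      rw [Real.norm_of_nonneg (sq_nonneg _)]
      have h1 := hn.hu0 hgi V
      have h2 := hn.hu1 hgi V
      gcongr
  exact le_of_tendsto hlim he

end Pool.Agent.H284.Z987
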